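import Mathlib

import Pool.Agent.Helper40.CX.H26VC.Ext
import Pool.Agent.Helper40.CX.H83VF.Kill
import Pool.Agent.Helper40.CX.Good

namespace CX

/-!
# Decomposition into eigenfunctions
-/

set_option autoImplicit false

namespace VF

open VC VP Function

universe u

variable {k : Type u} [Field k]

lemma lc_zero (X : Variety k) (z : X.Cycles) :
    Finsupp.linearCombination ℤ (fun _ : X.Pt => (0 : ℂ)) z = 0 := by
  induction z using Finsupp.induction_linear with
  | zero => simp
  | add a b ha hb => rw [map_add, ha, hb, add_zero]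
  | single p n => rw [Finsupp.linearCombination_single, smul_zero]

lemma lc_sum (X : Variety k) {ι : Type*} (s : Finset ι) (f : ι → X.Pt → ℂ) (z : X.Cycles) :
    Finsupp.linearCombination ℤ (fun p => ∑ i ∈ s, f i p) z
      = ∑ i ∈ s, Finsupp.linearCombination ℤ (f i) z := by
  induction z using Finsupp.induction_linear with
  | zero => simp
  | add a b ha hb => simp only [map_add, ha, hb, Finset.sum_add_distrib]
  | single p n =>
    simp only [Finsupp.linearCombination_single, Finset.smul_sum]

lemma lc_smul (X : Variety k) (c : ℂ) (f : X.Pt → ℂ) (z : X.Cycles) :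
    Finsupp.linearCombination ℤ (fun p => c * f p) z
      = c * Finsupp.linearCombination ℤ f z := by
  induction z using Finsupp.induction_linear with
  | zero => simp
  | add a b ha hb => rw [map_add, map_add, ha, hb, mul_add]
  | single p n =>
    rw [Finsupp.linearCombination_single, Finsupp.linearCombination_single, mul_smul_comm]

/-- Functions which vanish on the cycles rationally equivalent to zero separate the classes with
rational coefficients. -/
theorem separation (X : Variety k) (z : X.Cycles)
    (h : ∀ ψ : X.Pt → ℂ, Kills X ψ → Finsupp.linearCombination ℤ ψ z = 0) :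
    ∃ N : ℕ, 0 < N ∧ N • z ∈ X.Rat := by
  rw [← cl_eq_zero_iff]
  by_contra hz
  have h1 : ¬ ∀ f : Module.Dual ℚ (ChowQ X), f (cl X z) = 0 := by
    rw [Module.forall_dual_apply_eq_zero_iff]
    exact hz
  push Not at h1
  obtain ⟨f, hf⟩ := h1
  let ψ : X.Pt → ℂ := fun p => ((f (cl X (Finsupp.single p 1)) : ℚ) : ℂ)
  have key : ∀ w : X.Cycles, Finsupp.linearCombination ℤ ψ w = ((f (cl X w) : ℚ) : ℂ) := by
    intro w
    induction w using Finsupp.induction_linear with
    | zero => simp
    | add a b ha hb => rw [map_add, ha, hb, map_add, map_add, Rat.cast_add]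
    | single p n =>
      rw [Finsupp.linearCombination_single]
      have h2 : (Finsupp.single p n : X.Cycles) = n • Finsupp.single p 1 := by
        rw [Finsupp.smul_single, smul_eq_mul, mul_one]
      rw [h2, map_zsmul, map_zsmul, zsmul_eq_mul, zsmul_eq_mul, Rat.cast_mul, Rat.cast_intCast]
  have h2 := h ψ (fun w hw => by rw [key, cl_of_mem X hw, map_zero, Rat.cast_zero])
  rw [key] at h2
  exact hf (Rat.cast_eq_zero.1 h2)

/-! ### A full character -/

/-- All `m`-th roots of unity are values of the character and its kernel is trivial. -/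
def IsFull {m : ℕ} (E : AddChar (ZMod m) ℂ) : Prop :=
  (∀ c, E c = 1 → c = 0) ∧ ∀ z : ℂ, z ^ m = 1 → ∃ c, E c = z

theorem exists_full (m : ℕ) [NeZero m] :
    ∃ E : AddChar (ZMod m) ℂ, IsFull E := by
  have : NeZero (m : ℂ) := ⟨Nat.cast_ne_zero.2 (NeZero.ne m)⟩
  obtain ⟨ζ, hζ⟩ := HasEnoughRootsOfUnity.exists_primitiveRoot ℂ m
  refine ⟨AddChar.zmodChar m hζ.pow_eq_one, fun c hc => ?_, fun z hz => ?_⟩
  · rw [AddChar.zmodChar_apply] at hc
    have h1 := (hζ.pow_eq_one_iff_dvd _).1 hc
    have h2 : c.val = 0 := Nat.eq_zero_of_dvd_of_lt h1 (ZMod.val_lt c)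
    exact (ZMod.val_eq_zero c).1 h2
  · obtain ⟨i, hi, h⟩ := hζ.eq_pow_of_pow_eq_one hz
    exact ⟨(i : ZMod m), by rw [AddChar.zmodChar_apply']; exact h⟩

section maps

variable [IsAlgClosed k] [Good k] {n : ℕ}

lemma induced_pow {X Y : Variety k} (f : Fin n → X.Pt → Y.Pt) (h : ∀ i, Induced X Y (f i)) :
    Induced (X.pow n) (Y.pow n) (fun p i => f i (p i)) := by
  intro K _ _ hK c
  choose d hd using fun i => h i K hK (c i)
  exact ⟨d, fun v => funext fun i => hd i v⟩

lemma induced_perm {X : Variety k} (σ : Equiv.Perm (Fin n)) :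
    Induced (X.pow n) (X.pow n) (fun p i => p (σ i)) := by
  intro K _ _ hK c
  exact ⟨fun i => c (σ i), fun v => rfl⟩

lemma extProd_perm {X : Variety k} (a : Fin n → X.Cycles) (σ : Equiv.Perm (Fin n)) :
    extProd (fun i => a (σ i))
      = Finsupp.mapDomain (fun p : Fin n → X.Pt => fun i => p (σ i)) (extProd a) := by
  have hinj : Function.Injective (fun p : Fin n → X.Pt => fun i => p (σ i)) := by
    intro p q h
    funext i
    have := congrFun h (σ.symm i)
    simpa using this
  ext p
  have h1 : p = (fun p : Fin n → X.Pt => fun i => p (σ i)) (fun i => p (σ.symm i)) := by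
    funext i
    simp
  have h2 : ∀ (a : Fin n → X.Cycles) (p : Fin n → X.Pt), extProd a p = ∏ i, a i (p i) :=
    fun a p => ext'_apply a p
  have h3 : (Finsupp.mapDomain (fun p : Fin n → X.Pt => fun i => p (σ i)) (extProd a)) p
      = extProd a (fun i => p (σ.symm i)) := by
    conv_lhs => rw [h1]
    exact Finsupp.mapDomain_apply hinj (extProd a) (fun i => p (σ.symm i))
  rw [h3, h2, h2, ← Equiv.prod_comp σ (fun i => a i (p (σ.symm i)))]
  simp

end maps

end VF

end CX
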